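import Mathlib

set_option autoImplicit false

namespace Pool.Agent.Results.MP_ffae75_co.Counter

open Finset Polynomial Pointwise

/-- The base-`r` `d`-simplex. -/
def B (r d : ℕ) : Set (Fin d → ℝ) := convexHull ℝ (insert (fun k => -((r - 1) * r ^ k.1 : ℝ))
  (Set.range fun i => Pi.single i 1))

/-- The number of lattice points of `t B`. -/
noncomputable def L (r d t : ℕ) : ℕ :=
  {x : Fin d → ℤ | (fun i => (x i : ℝ)) ∈ (t : ℝ) • B r d}.ncard

def C (t : ℝ) (x : Fin 5 → ℝ) : Prop :=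
  0 ≤ t - ∑ i, x i ∧ ∀ k, 0 ≤ 14 ^ 5 * x k + (t - ∑ i, x i) * (13 * 14 ^ k.1)

lemma mem (t : ℕ) (x : Fin 5 → ℝ) : x ∈ (t : ℝ) • B 14 5 ↔ C t x := by
  constructor
  · rintro ⟨y, hy, rfl⟩
    have : C 1 y := by
      refine convexHull_min (t := {y | C 1 y}) ?_ ?_ hy
      · rintro _ (rfl | ⟨i, rfl⟩)
        · simp [C, Fin.sum_univ_five, Fin.forall_fin_succ]; norm_num
        · simp [C, Pi.single_apply]; intro k; split_ifs <;> norm_num
      · intro p hp q hq a b ha hb ab
        obtain rfl := eq_sub_of_add_eq ab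
        simp only [Set.mem_ofPred, C, Pi.add_apply, Pi.smul_apply, smul_eq_mul, sum_add_distrib,
          ← mul_sum] at *
        exact ⟨by linarith [mul_nonneg ha hp.1, mul_nonneg hb hq.1],
          fun k => by linarith [mul_nonneg ha (hp.2 k), mul_nonneg hb (hq.2 k)]⟩
    simp only [C, Pi.smul_apply, smul_eq_mul, ← mul_sum]
    exact ⟨by linarith [mul_nonneg t.cast_nonneg this.1],
      fun k => by linarith [mul_nonneg t.cast_nonneg (this.2 k)]⟩
  rintro ⟨h, k⟩
  rcases t.eq_zero_or_pos with rfl | ht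
  · refine ⟨_, subset_convexHull _ _ (.inl rfl), ?_⟩
    have := k 0; have := k 1; have := k 2; have := k 3; have := k 4
    ext i
    simp [Fin.sum_univ_five] at *
    fin_cases i <;> simp <;> linarith
  have ht : (0 : ℝ) < t := by exact_mod_cast ht
  refine (Set.mem_smul_set_iff_inv_smul_mem₀ ht.ne' _ _).2 (mem_convexHull_of_exists_fintype
    (fun o : Option (Fin 5) => o.elim (t - ∑ i, x i) (fun k => 14 ^ 5 * x k + (t - ∑ i, x i) *
      (13 * 14 ^ k.1)) / (14 ^ 5 * t))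
    (fun o => o.elim (fun k => -((14 - 1) * 14 ^ k.1 : ℝ)) fun i => Pi.single i 1)
    ?_ ?_ ?_ ?_)
  · rintro (_ | i)
    exacts [div_nonneg h (by positivity), div_nonneg (k i) (by positivity)]
  · simp [Fintype.sum_option, Fin.sum_univ_five]; field_simp; ring
  · rintro (_ | i)
    exacts [.inl (by simp), .inr ⟨i, rfl⟩]
  · ext i
    simp [Fintype.sum_option, Pi.single_apply]; field_simp; ring

@[irreducible] def N : ℕ := 537824

def ω (b : ℕ) : ℕ := b - (b * 13 / 537824 + b * 182 / 537824 + b * 2548 / 537824 +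
  b * 35672 / 537824 + b * 499408 / 537824)

lemma count (t : ℕ) : L 14 5 t = ∑ b ∈ range N, (t + 5 - ω b).choose 5 := by
  have e : ∀ b ∈ range N, (t + 5 - ω b).choose 5 =
      #{z ∈ piAntidiag (univ : Finset (Fin 6)) (t - ω b) | ω b ≤ t} := fun b hb => by
    by_cases h : ω b ≤ t
    · have := card_finsuppAntidiag_nat_eq_choose (s := (univ : Finset (Fin 6))) (t - ω b)
      rw [finsuppAntidiag, card_map, card_attach] at this
      rw [filter_true_of_mem fun _ _ => h, this, ← Nat.choose_symm (by omega)]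
      rw [card_univ, Fintype.card_fin]; congr 1 <;> omega
    · rw [filter_false_of_mem fun _ _ => h, Nat.choose_eq_zero_of_lt (by omega), card_empty]
  rw [sum_congr rfl e, ← card_sigma, ← Set.ncard_coe_finset]
  let u (b : ℕ) (k : Fin 5) : ℕ := b * (13 * 14 ^ k.1) / 537824
  have f1 : ∀ b, (ω b : ℤ) + ∑ k, (u b k : ℤ) = b := fun b => by
    have : ω b + ∑ k, u b k = b := by simp [ω, u, Fin.sum_univ_five]; omega
    exact_mod_cast this
  have f2 : ∀ b k, (14 ^ 5 * u b k : ℤ) ≤ b * (13 * 14 ^ k.1) ∧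
      b * (13 * 14 ^ k.1) < (14 ^ 5 * (u b k + 1) : ℤ) := fun b k => by
    exact_mod_cast And.intro (Nat.mul_div_le _ 537824) (Nat.lt_mul_div_succ _ (by norm_num : 0 < 537824))
  have f3 : ∑ k : Fin 5, (13 * 14 ^ k.1 : ℤ) = 14 ^ 5 - 1 := by decide
  have f4 : ∀ b (z : Fin 6 → ℕ), (⟨b, z⟩ : (_ : ℕ) × (Fin 6 → ℕ)) ∈ ((range N).sigma fun b =>
      {z ∈ piAntidiag (univ : Finset (Fin 6)) (t - ω b) | ω b ≤ t} : Set _) ↔
      b < 537824 ∧ (z 0 + ∑ k : Fin 5, (z k.succ : ℤ) + ω b = t) := fun b z => by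
    simp only [mem_coe, mem_sigma, mem_range, mem_filter, mem_piAntidiag, mem_univ, implies_true,
      and_true, N, Fin.sum_univ_succ (n := 5), ← Nat.cast_sum]
    omega
  have f5 : ∀ b (z : Fin 6 → ℕ), z 0 + ∑ k : Fin 5, (z k.succ : ℤ) + ω b = t → (t : ℤ) -
      ∑ k : Fin 5, ((z k.succ : ℤ) - z 0 * (13 * 14 ^ k.1) - u b k) = 14 ^ 5 * z 0 + b :=
    fun b z h => by rw [sum_sub_distrib, sum_sub_distrib, ← mul_sum, f3]; linarith [f1 b]
  have f6 : ∀ x : Fin 5 → ℤ, C t (fun i => x i) ↔ 0 ≤ (t : ℤ) - ∑ i, x i ∧ ∀ k : Fin 5,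
      0 ≤ 14 ^ 5 * x k + ((t : ℤ) - ∑ i, x i) * (13 * 14 ^ k.1) := fun x => by
    simp only [C]; norm_cast
  refine (Set.ncard_congr (fun p _ (k : Fin 5) => (p.2 k.succ : ℤ) - p.2 0 * (13 * 14 ^ k.1) -
    u p.1 k) ?_ ?_ ?_).symm
  · rintro ⟨b, z⟩ h
    rw [Set.mem_ofPred, mem, f6, f5 b z ((f4 b z).1 h).2]
    exact ⟨by positivity, fun k => by linarith [(f2 b k).1, (z k.succ).cast_nonneg (α := ℤ)]⟩
  · rintro ⟨b, z⟩ ⟨b', z'⟩ h h' e
    rw [f4] at h h'
    have := (f5 b z h.2).symm.trans ((congrArg (fun x => (t : ℤ) - ∑ i, x i) e).trans (f5 b' z' h'.2))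
    obtain ⟨rfl, e0⟩ : b = b' ∧ z 0 = z' 0 := by omega
    congr 1
    ext k
    refine Fin.cases e0 (fun k => ?_) k
    simpa [e0] using congrFun e k
  · intro x hx
    rw [Set.mem_ofPred, mem, f6] at hx
    obtain ⟨m, hm⟩ := Int.eq_ofNat_of_zero_le hx.1
    have m0 : (m : ℤ) = 14 ^ 5 * (m / 537824 : ℕ) + (m % 537824 : ℕ) := by omega
    have : ∀ k : Fin 5, ((x k + (m / 537824 : ℕ) * (13 * 14 ^ k.1) + u (m % 537824) k).toNat : ℤ) =
        x k + (m / 537824 : ℕ) * (13 * 14 ^ k.1) + u (m % 537824) k := fun k =>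
      Int.toNat_of_nonneg (Int.le_of_lt_add_one (by
        have := hx.2 k
        rw [hm, m0] at this
        linarith [(f2 (m % 537824) k).2]))
    refine ⟨⟨m % 537824, Fin.cons (m / 537824) fun k =>
      (x k + (m / 537824 : ℕ) * (13 * 14 ^ k.1) + u (m % 537824) k).toNat⟩,
      (f4 _ _).2 ⟨by omega, ?_⟩, funext fun k => ?_⟩ <;> simp only [Fin.cons_zero, Fin.cons_succ, this]
    · rw [sum_add_distrib, sum_add_distrib, ← mul_sum, f3]; linarith [f1 (m % 537824)]
    · ring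

def a (w : ℕ) : ℕ := (280 + 30 * 512 + 10 * 512 ^ 3 + 30 * 512 ^ 5) / 512 ^ w % 512

def T (f : ℕ → ℕ → ℕ) : ℕ → ℕ → ℕ → ℕ
  | 0, c, s => f c s
  | l + 1, c, s => ∑ d ∈ range 14, T f l ((13 * d + c) / 14) (s + (d - (13 * d + c) / 14))

def G : ℕ → ℕ → ℕ → ℕ
  | 0, _, _ => 0
  | l + 1, b, c => (b % 14 - (13 * (b % 14) + c) / 14) + G l (b / 14) ((13 * (b % 14) + c) / 14)

lemma split (f : ℕ → ℕ) (m : ℕ) :
    ∑ b ∈ range (m * 14), f b = ∑ i ∈ range m, ∑ d ∈ range 14, f (i * 14 + d) := by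
  induction m with
  | zero => simp
  | succ m ih => rw [sum_range_succ, ← ih, add_one_mul, sum_range_add]

lemma TG (l : ℕ) : ∀ c s, ∑ b ∈ range (14 ^ l), a (s + G l b c) = T (fun _ => a) l c s := by
  induction l with
  | zero => simp [T, G]
  | succ l ih =>
    intro c s
    rw [pow_succ, split, sum_comm, T]
    refine sum_congr rfl fun d hd => (sum_congr rfl fun i _ => ?_).trans (ih _ _)
    have := mem_range.1 hd
    rw [G, show (i * 14 + d) % 14 = d by omega, show (i * 14 + d) / 14 = i by omega, add_assoc]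

lemma TT (f g : ℕ → ℕ → ℕ) (h : ∀ c < 13, ∀ s < 4, T f 2 c s = g c s) (l : ℕ) :
    ∀ c < 13, ∀ s, s + l < 4 → T f (l + 2) c s = T g l c s := by
  induction l with
  | zero => exact h
  | succ l ih => exact fun c hc s hs => sum_congr rfl fun d hd => ih _ (by
      have := mem_range.1 hd; omega) _ (by have := mem_range.1 hd; omega)

lemma GG (l : ℕ) : ∀ b < 14 ^ l, ∀ c < 13,
    G l b c + ∑ j ∈ range l, (13 * b + c) / 14 ^ (j + 1) = b := by
  induction l with
  | zero => simp [G]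
  | succ l ih =>
    intro b hb c hc
    have := ih (b / 14) (by omega) ((13 * (b % 14) + c) / 14) (by omega)
    rw [sum_range_succ', G, sum_congr rfl (g := fun j => (13 * (b / 14) + (13 * (b % 14) + c) / 14) /
      14 ^ (j + 1)) fun j _ => by rw [pow_succ', ← Nat.div_div_eq_div_mul]; congr 1; omega]
    omega

lemma total : ∑ b ∈ range N, a (ω b) = 3224800 := by
  rw [show N = 14 ^ 5 by rw [N]; rfl, sum_congr rfl (g := fun b => a (0 + G 5 b 0)) fun b hb => ?_, TG,
    TT _ (fun c s => (([[3400, 940, 1040, 2740], [4290, 870, 1150, 2370], [5400, 840, 1240, 2040], [6730, 850, 1310, 1750], [8280, 900, 1360, 1500], [10050, 990, 1390, 1290], [12040, 1120, 1400, 1120], [14250, 1290, 1390, 990], [16680, 1500, 1360, 900], [19330, 1750, 1310, 850], [22200, 2040, 1240, 840], [25290, 2370, 1150, 870], [28600, 2740, 1040, 940]] : List (List ℕ)).getD c []).getD s 0) (by decide +kernel) 3 0 (by norm_num) 0 (by norm_num)]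
  · decide +kernel
  have := GG 5 b (mem_range.1 hb) 0 (by norm_num)
  simp only [sum_range_succ, range_zero, sum_empty] at this
  rw [ω, show b * 13 / 537824 = (13 * b + 0) / 14 ^ 5 by omega,
    show b * 182 / 537824 = (13 * b + 0) / 14 ^ 4 by omega,
    show b * 2548 / 537824 = (13 * b + 0) / 14 ^ 3 by omega,
    show b * 35672 / 537824 = (13 * b + 0) / 14 ^ 2 by omega,
    show b * 499408 / 537824 = (13 * b + 0) / 14 ^ 1 by omega]
  congr 1; omega

theorem result : ∃ p : ℚ[X], (∀ t : ℕ, p.eval (t : ℚ) = L 14 5 t) ∧ p.coeff 1 < 0 := by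
  have w : ∀ b ∈ range N, ω b ≤ 5 := fun b h => by simp [ω, N] at *; omega
  refine ⟨∑ b ∈ range N, Polynomial.C (1 / 120) *
    (descPochhammer ℚ 5).comp (X + Polynomial.C (5 - ω b : ℚ)), fun t => ?_, ?_⟩
  · rw [count, eval_finsetSum, Nat.cast_sum]
    refine sum_congr rfl fun b h => ?_
    rw [Nat.cast_choose_eq_descPochhammer_div, Nat.cast_sub (by have := w b h; omega)]
    simp [Nat.factorial, add_sub_assoc]; ring
  · rw [finsetSum_coeff, sum_congr rfl (g := fun b => (a (ω b) - 6 : ℚ) / 120) fun b h => ?_,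
      ← sum_div, sum_sub_distrib, ← Nat.cast_sum, total]
    · norm_num [N]
    have := w b h
    rw [← mul_one (coeff _ 1), ← zero_add (1 : ℚ), ← Nat.cast_zero, ← coeff_derivative,
      coeff_zero_eq_eval_zero]
    generalize ω b = v at this
    interval_cases v <;> simp [descPochhammer_succ_right, a] <;> norm_num

end Pool.Agent.Results.MP_ffae75_co.Counter
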